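import Pool.Agent.Lib.H29SI.D

/-!
# The conjectured bound: few hull vertices, interior points (MP_280848_co)

`X` is a configuration of `n` different points which span `ℝ^d`, `A` and `a` are the largest and the
smallest positive volume of a simplex with vertices in `X`. If `conv X` is covered by `t` simplices with
vertices in `X` then `A / a ≥ (n - d) / t`. If the vertices of these simplices are `v` of the points and
`m` of the other points are interior points of `conv X` then `A / a ≥ 1 + (n - v + (d - 1) m) / t`.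

Proof of the second bound: subdivide the covering at the other points, one after the other. The total
volume is at most `t A` all the time. A new point `p` gives at least one more simplex, and at least `d`
more if it is an interior point of the hull: the sum over the simplices with `p` of the dimension of
the face of `p` is at least `d`, since otherwise there is a direction in which no simplex leaves `p`.
-/

namespace Pool.Agent.Results.MP_280848_co.FewHullVertices

/-- The volume of the simplex with the vertices `x 0, ..., x d`. -/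
noncomputable def simplexVolume {d : ℕ} (x : Fin (d + 1) → Fin d → ℝ) : ℝ :=
  |Matrix.det (Matrix.of fun i j : Fin d => x i.succ j - x 0 j)| / d.factorial

/-- The volumes of the simplices with vertices in the configuration `X`. -/
def volumes {d n : ℕ} (X : Fin n → Fin d → ℝ) : Set ℝ :=
  {t | ∃ u : Fin (d + 1) → Fin n, t = simplexVolume fun i => X (u i)}

/-- The number of vertices of the convex hull. -/
noncomputable def hullVertices {d n : ℕ} (X : Fin n → Fin d → ℝ) : ℕ :=
  ((convexHull ℝ (Set.range X)).extremePoints ℝ).ncard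

/-- The number of the points outside `V` which are interior points of the convex hull. -/
noncomputable def interiorPoints {d n : ℕ} (X : Fin n → Fin d → ℝ) (V : Finset (Fin n)) : ℕ :=
  {x | x ∉ V ∧ X x ∈ interior (convexHull ℝ (Set.range X))}.ncard

/-- The simplices with the vertices `X (F j 0), ..., X (F j d)`, `j < t`, cover the convex hull. -/
def Covers {d n : ℕ} (X : Fin n → Fin d → ℝ) (t : ℕ) (F : Fin t → Fin (d + 1) → Fin n) : Prop :=
  convexHull ℝ (Set.range X) ⊆ ⋃ j, convexHull ℝ (Set.range fun i => X (F j i))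

theorem result (d n : ℕ) (hd : 2 ≤ d) (X : Fin n → Fin d → ℝ) (hX : Function.Injective X)
    (hspan : affineSpan ℝ (Set.range X) = ⊤) :
    ∃ A a : ℝ, IsGreatest (volumes X) A ∧ IsLeast {t ∈ volumes X | 0 < t} a ∧
      (∀ (t : ℕ) (F : Fin t → Fin (d + 1) → Fin n), Covers X t F → ((n : ℝ) - d) / t ≤ A / a) ∧
      (∀ (t : ℕ) (F : Fin t → Fin (d + 1) → Fin n) (V : Finset (Fin n)), Covers X t F →
        (∀ j i, F j i ∈ V) →
          1 + ((n : ℝ) - V.card + (d - 1) * interiorPoints X V) / t ≤ A / a) ∧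
      (∀ (F : Fin d → Fin (d + 1) → Fin n) (V : Finset (Fin n)), Covers X d F →
        (∀ j i, F j i ∈ V) → V.card ≤ 2 * d → 1 ≤ interiorPoints X V →
          ((n : ℝ) - 1) / d ≤ A / a) ∧
      (hullVertices X ≤ d + 1 → (n : ℝ) - d + (d - 1) * interiorPoints X ∅ ≤ A / a) ∧
      (hullVertices X ≤ d + 2 →
        1 + ((n : ℝ) - d - 2 + (d - 1) * interiorPoints X ∅) / ((d + 2) / 2 : ℕ) ≤ A / a) ∧
      (hullVertices X ≤ d + 2 → 3 ≤ d → d + 5 ≤ n → ((n : ℝ) - 1) / d ≤ A / a) ∧
      (hullVertices X ≤ d + 2 → 3 ≤ d → d + 6 ≤ n → ((n : ℝ) - 1) / d < A / a) := by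
  classical
  obtain ⟨v, w, h1, h2, h3, h4⟩ := Pool.Agent.Lib.H49SV.extremes n X hspan
  have hn := Pool.Agent.Lib.H49SV.card_ge n X hspan
  have hf : (0 : ℝ) < d.factorial := by positivity
  have hvol : ∀ u : Fin (d + 1) → Fin n, simplexVolume (fun i => X (u i)) =
      |(Pool.Agent.Lib.H49SV.diffs (X ∘ u)).det| / d.factorial := fun u => rfl
  have hA0 : 0 < |(Pool.Agent.Lib.H49SV.diffs (X ∘ v)).det| := abs_pos.2 h2
  have ha0 : 0 < |(Pool.Agent.Lib.H49SV.diffs (X ∘ w)).det| := abs_pos.2 h3
  have hd1 : (1 : ℝ) ≤ d := by exact_mod_cast (by omega : 1 ≤ d)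
  have hadd : ∀ t N : ℝ, 0 < t → 1 + N / t = (t + N) / t := by
    intro t N ht
    rw [add_div, div_self ht.ne']
  have hone : 1 ≤ simplexVolume (fun i => X (v i)) / simplexVolume (fun i => X (w i)) := by
    rw [hvol, hvol, div_div_div_cancel_right₀ hf.ne', one_le_div ha0]
    exact h1 w
  have hcov : ∀ (t : ℕ) (F : Fin t → Fin (d + 1) → Fin n), Covers X t F →
        ((n : ℝ) - d) / t ≤
          simplexVolume (fun i => X (v i)) / simplexVolume (fun i => X (w i)) := by
    intro t F hF
    rw [hvol, hvol, div_div_div_cancel_right₀ hf.ne']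
    have h5 := Pool.Agent.Lib.H49SV.cover n X hX hspan hn _ _ ha0.le hA0.le h4 h1 t F hF
    rcases Nat.eq_zero_or_pos t with rfl | ht
    · rw [Nat.cast_zero, div_zero]
      positivity
    · have ht' : (0 : ℝ) < t := by exact_mod_cast ht
      rw [div_le_div_iff₀ ht' ha0]
      linarith
  have hnew : ∀ (t : ℕ) (F : Fin t → Fin (d + 1) → Fin n) (V : Finset (Fin n)), Covers X t F →
      (∀ j i, F j i ∈ V) →
        1 + ((n : ℝ) - V.card + (d - 1) * interiorPoints X V) / t ≤
          simplexVolume (fun i => X (v i)) / simplexVolume (fun i => X (w i)) := by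
    intro t F V hF hV
    rcases Nat.eq_zero_or_pos t with rfl | ht
    · rw [Nat.cast_zero, div_zero, add_zero]
      exact hone
    · have ht' : (0 : ℝ) < t := by exact_mod_cast ht
      rw [hvol, hvol, div_div_div_cancel_right₀ hf.ne']
      have h5 := Pool.Agent.Lib.H29SI.count X hX hspan _ _ ha0.le (h1 w) h4 h1 t F V hV hF
      rw [Pool.Agent.Lib.H29SI.sum_wt X V (interiorPoints X V) rfl] at h5
      rw [hadd _ _ ht', div_le_div_iff₀ ht' ha0]
      linarith
  have hcardV : ∀ V : Finset (Fin n), (V.card : ℝ) ≤ n := by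
    intro V
    have := Finset.card_le_univ V
    rw [Fintype.card_fin] at this
    exact_mod_cast this
  -- the interior points are not hull vertices
  have hint : ∀ V : Finset (Fin n),
      (∀ x ∈ V, X x ∈ (convexHull ℝ (Set.range X)).extremePoints ℝ) →
        interiorPoints X V = interiorPoints X ∅ := by
    intro V hV
    unfold interiorPoints
    congr 1
    ext x
    simp only [Set.mem_ofPred_eq, Finset.notMem_empty, not_false_eq_true, true_and,
      and_iff_right_iff_imp]
    intro hx hxV
    exact Pool.Agent.Lib.H29SI.ext_not_int (by omega) _ (hV x hxV) hx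
  have him : ∀ (m : ℕ) (u : Fin m → Fin n),
      (∀ i, X (u i) ∈ (convexHull ℝ (Set.range X)).extremePoints ℝ) →
        interiorPoints X (Finset.univ.image u) = interiorPoints X ∅ ∧
          (Finset.univ.image u).card ≤ m := by
    intro m u hu
    constructor
    · apply hint
      intro x hx
      obtain ⟨i, -, rfl⟩ := Finset.mem_image.1 hx
      exact hu i
    · calc (Finset.univ.image u).card ≤ (Finset.univ : Finset (Fin m)).card := Finset.card_image_le
        _ = m := by rw [Finset.card_univ, Fintype.card_fin]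
  have hrad : hullVertices X ≤ d + 2 →
      1 + ((n : ℝ) - d - 2 + (d - 1) * interiorPoints X ∅) / ((d + 2) / 2 : ℕ) ≤
        simplexVolume (fun i => X (v i)) / simplexVolume (fun i => X (w i)) := by
    intro hc
    obtain ⟨u, hu, hue⟩ := Pool.Agent.Lib.H29SI.vertices_ext (d + 2) X (by omega) hc
    obtain ⟨t, F, ht1, ht2, hF⟩ := Pool.Agent.Lib.H49SV.radon (X ∘ u)
    obtain ⟨h5, h6⟩ := him _ u hue
    have h7 := hnew t (fun j i => u (F j i)) (Finset.univ.image u)
      (by unfold Covers; rw [← hu]; exact hF)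
      (fun j i => Finset.mem_image_of_mem u (Finset.mem_univ _))
    rw [h5] at h7
    refine le_trans ?_ h7
    have ht' : (0 : ℝ) < t := by exact_mod_cast ht1
    have ht'' : (t : ℝ) ≤ ((d + 2) / 2 : ℕ) := by exact_mod_cast ht2
    have h8 : ((Finset.univ.image u).card : ℝ) ≤ d + 2 := by exact_mod_cast h6
    have h9 : 0 ≤ ((d : ℝ) - 1) * interiorPoints X ∅ := mul_nonneg (by linarith) (Nat.cast_nonneg _)
    have h10 := hcardV (Finset.univ.image u)
    apply add_le_add_right
    calc ((n : ℝ) - d - 2 + (d - 1) * interiorPoints X ∅) / ((d + 2) / 2 : ℕ)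
        ≤ ((n : ℝ) - (Finset.univ.image u).card + (d - 1) * interiorPoints X ∅) / ((d + 2) / 2 : ℕ) :=
          div_le_div_of_nonneg_right (by linarith) (by positivity)
      _ ≤ ((n : ℝ) - (Finset.univ.image u).card + (d - 1) * interiorPoints X ∅) / t :=
          div_le_div_of_nonneg_left (by linarith) ht' ht''
  -- arithmetic of the bound
  have hT : 3 ≤ d → d + 5 ≤ n →
      ((n : ℝ) - 1) * ((d + 2) / 2 : ℕ) ≤ (((d + 2) / 2 : ℕ) + ((n : ℝ) - d - 2)) * d ∧
      (d + 6 ≤ n →
        ((n : ℝ) - 1) * ((d + 2) / 2 : ℕ) < (((d + 2) / 2 : ℕ) + ((n : ℝ) - d - 2)) * d) := by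
    intro hd3 hn5
    obtain ⟨m, hm⟩ : ∃ m, n = d + 5 + m := ⟨n - (d + 5), by omega⟩
    have hm' : (n : ℝ) = d + 5 + m := by rw [hm]; push_cast; ring
    have hm0 : (0 : ℝ) ≤ m := Nat.cast_nonneg m
    rcases Nat.eq_or_lt_of_le hd3 with h | h
    · have h6 : (((d + 2) / 2 : ℕ) : ℝ) = 2 := by
        rw [← h]; norm_num
      have h7 : (d : ℝ) = 3 := by rw [← h]; norm_num
      rw [h6, hm', h7]
      constructor
      · linarith
      · intro _; linarith
    · have h6 : (2 : ℝ) * (((d + 2) / 2 : ℕ) : ℝ) ≤ d + 2 := by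
        exact_mod_cast (by omega : 2 * ((d + 2) / 2) ≤ d + 2)
      have h7 : (4 : ℝ) ≤ d := by exact_mod_cast h
      set f : ℝ := (((d + 2) / 2 : ℕ) : ℝ) with hf'
      have h8 : (4 + (m : ℝ)) * (2 * f) ≤ (4 + m) * (d + 2) :=
        mul_le_mul_of_nonneg_left h6 (by linarith)
      have h10 : (m : ℝ) * 2 ≤ m * (d - 2) := mul_le_mul_of_nonneg_left (by linarith) hm0
      rw [hm']
      constructor
      · nlinarith
      · intro h11
        have h12 : (1 : ℝ) ≤ m := by exact_mod_cast (by omega : 1 ≤ m)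
        nlinarith
  have hdiv : (0 : ℝ) < d ∧ (0 : ℝ) < ((d + 2) / 2 : ℕ) :=
    ⟨by linarith, by exact_mod_cast (by omega : 0 < (d + 2) / 2)⟩
  have hdrop : hullVertices X ≤ d + 2 →
      (((d + 2) / 2 : ℕ) + ((n : ℝ) - d - 2)) / ((d + 2) / 2 : ℕ) ≤
        simplexVolume (fun i => X (v i)) / simplexVolume (fun i => X (w i)) := by
    intro hc
    refine le_trans ?_ (hrad hc)
    rw [add_div, div_self hdiv.2.ne']
    apply add_le_add_right
    apply div_le_div_of_nonneg_right _ hdiv.2.le
    have : 0 ≤ ((d : ℝ) - 1) * interiorPoints X ∅ := mul_nonneg (by linarith) (Nat.cast_nonneg _)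
    linarith
  refine ⟨simplexVolume fun i => X (v i), simplexVolume fun i => X (w i), ⟨⟨v, rfl⟩, ?_⟩,
    ⟨⟨⟨w, rfl⟩, ?_⟩, ?_⟩, hcov, hnew, ?_, ?_, hrad, fun hc hd3 hn5 => ?_, fun hc hd3 hn6 => ?_⟩
  · rintro _ ⟨u, rfl⟩
    rw [hvol, hvol]
    exact div_le_div_of_nonneg_right (h1 u) hf.le
  · rw [hvol]
    exact div_pos ha0 hf
  · rintro _ ⟨⟨u, rfl⟩, hu⟩
    rw [hvol] at hu
    rw [hvol, hvol]
    refine div_le_div_of_nonneg_right (h4 u fun h => ?_) hf.le
    rw [h, abs_zero, zero_div] at hu
    exact lt_irrefl _ hu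
  · intro F V hF hV hVc hm
    refine le_trans ?_ (hnew d F V hF hV)
    rw [hadd _ _ hdiv.1]
    apply div_le_div_of_nonneg_right _ hdiv.1.le
    have h5 : (V.card : ℝ) ≤ 2 * d := by exact_mod_cast hVc
    have h6 : (1 : ℝ) ≤ interiorPoints X V := by exact_mod_cast hm
    have h7 : ((d : ℝ) - 1) * 1 ≤ (d - 1) * interiorPoints X V :=
      mul_le_mul_of_nonneg_left h6 (by linarith)
    linarith
  · intro hc
    obtain ⟨u, hu, hue⟩ := Pool.Agent.Lib.H29SI.vertices_ext (d + 1) X (by omega) hc
    obtain ⟨h5, h6⟩ := him _ u hue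
    have h7 := hnew 1 (fun _ => u) (Finset.univ.image u) (by
      unfold Covers
      rw [← hu]
      intro z hz
      rw [Set.mem_iUnion]
      exact ⟨0, hz⟩) (fun _ i => Finset.mem_image_of_mem u (Finset.mem_univ _))
    rw [h5, Nat.cast_one, div_one] at h7
    have h8 : ((Finset.univ.image u).card : ℝ) ≤ d + 1 := by exact_mod_cast h6
    linarith
  · refine le_trans ?_ (hdrop hc)
    rw [div_le_div_iff₀ hdiv.1 hdiv.2]
    exact (hT hd3 hn5).1
  · refine lt_of_lt_of_le ?_ (hdrop hc)
    rw [div_lt_div_iff₀ hdiv.1 hdiv.2]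
    exact (hT hd3 (by omega)).2 hn6

end Pool.Agent.Results.MP_280848_co.FewHullVertices
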