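import Pool.Agent.Lib.H2P.Z

/-!
# The conjectured bound for parallel lines in general position (MP_280848_co)

`X` is a configuration of `n` different points which span `ℝ^d`, `A` and `a` are the largest and the smallest
positive volume of a simplex with vertices in `X`. `J` is a set of points of `X` which lie on `k > d` lines of one
direction, no `d` of them in a hyperplane. Then `A / a` is at least `(d + 1) (|J| - k) / (2 k)` and at least
`(k - d) (|J| - k) / (4 k)`, so at least `(d + 1) (|J| - k) / (6 d + 4)`. So for `J = X` the conjectured lower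
bound holds strictly if `n` is large against `k`: for every `k > d` if `d ≥ 6`, for `k < 15` and for `k > 25` if
`d = 5`, and for `k < d (d + 1) / 2` if `d = 3, 4`.

Proof. (1) Any `d + 1` of the lines carry at most `2 A / a + d + 1` points; average over the cyclic shifts.
(2) Let `V` be the largest, `v` the smallest volume of a base simplex at the line `l`. If `d - 3` other vertices of
the largest one are fixed, the remaining `k - d + 2` lines give vectors of the plane with coordinates in `[-1, 1]`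
and determinants between `v / V` and `1`; their slopes show `(k - d) v ≤ 4 V`. So `(k - d) (n l - 1) a ≤ 4 A`.
-/

namespace Pool.Agent.Results.MP_280848_co.GeneralPosition

/-- The volume of the simplex with the vertices `x 0, ..., x d`. -/
noncomputable def simplexVolume {d : ℕ} (x : Fin (d + 1) → Fin d → ℝ) : ℝ :=
  |Matrix.det (Matrix.of fun i j : Fin d => x i.succ j - x 0 j)| / d.factorial

/-- The volumes of the simplices with vertices in the configuration `X`. -/
def volumes {d n : ℕ} (X : Fin n → Fin d → ℝ) : Set ℝ :=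
  {t | ∃ u : Fin (d + 1) → Fin n, t = simplexVolume fun i => X (u i)}

/-- The line through `X i` with the direction `w`. -/
def line {d n : ℕ} (X : Fin n → Fin d → ℝ) (w : Fin d → ℝ) (i : Fin n) : Set (Fin d → ℝ) :=
  {y | ∃ t : ℝ, y = X i + t • w}

/-- No hyperplane contains `d` different lines with the direction `w` through points `X i`, `i ∈ J`. -/
def InGeneralPosition {d n : ℕ} (X : Fin n → Fin d → ℝ) (w : Fin d → ℝ) (J : Finset (Fin n)) : Prop :=
  ∀ u : Fin d → Fin n, (∀ i, u i ∈ J) → (∀ i j, i ≠ j → line X w (u i) ≠ line X w (u j)) →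
    ∀ φ : (Fin d → ℝ) →ₗ[ℝ] ℝ, φ ≠ 0 → ∀ b : ℝ, ¬ ∀ i, ∀ y ∈ line X w (u i), φ y = b

theorem result (d n : ℕ) (hd : 3 ≤ d) (X : Fin n → Fin d → ℝ) (hX : Function.Injective X)
    (hspan : affineSpan ℝ (Set.range X) = ⊤) :
    ∃ A a : ℝ, IsGreatest (volumes X) A ∧ IsLeast {t ∈ volumes X | 0 < t} a ∧
      ∀ w : Fin d → ℝ, w ≠ 0 → ∀ (J : Finset (Fin n)) (k : ℕ), (line X w '' (J : Set (Fin n))).ncard = k →
        d + 1 ≤ k → InGeneralPosition X w J →
          ((d : ℝ) + 1) * ((J.card : ℝ) - k) / (2 * k) ≤ A / a ∧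
          ((k : ℝ) - d) * ((J.card : ℝ) - k) / (4 * k) ≤ A / a ∧
          ((d : ℝ) + 1) * ((J.card : ℝ) - k) / (6 * d + 4) ≤ A / a ∧
          (J = Finset.univ → 2 * k < d * (d + 1) → k * (d ^ 2 + d - 2) < (d ^ 2 + d - 2 * k) * n →
            ((n : ℝ) - 1) / d < A / a) ∧
          (J = Finset.univ → 4 * k < d * (k - d) → k * (d * (k - d) - 4) < (d * (k - d) - 4 * k) * n →
            ((n : ℝ) - 1) / d < A / a) ∧
          (J = Finset.univ → 6 ≤ d → (d ^ 2 + d) * k < (d ^ 2 - 5 * d - 4) * n → ((n : ℝ) - 1) / d < A / a) := by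
  obtain ⟨v, v', h1, h2, h3, h4⟩ := Pool.Agent.Lib.H49SV.extremes n X hspan
  have hf : (0 : ℝ) < d.factorial := by positivity
  have hvol : ∀ u : Fin (d + 1) → Fin n, simplexVolume (fun i => X (u i)) =
      |(Pool.Agent.Lib.H49SV.diffs (X ∘ u)).det| / d.factorial := fun u => rfl
  have ha0 : 0 < |(Pool.Agent.Lib.H49SV.diffs (X ∘ v')).det| := abs_pos.2 h3
  refine ⟨simplexVolume fun i => X (v i), simplexVolume fun i => X (v' i), ⟨⟨v, rfl⟩, ?_⟩,
    ⟨⟨⟨v', rfl⟩, ?_⟩, ?_⟩, fun w hw J k hJk hk hgp => ?_⟩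
  · rintro _ ⟨u, rfl⟩
    rw [hvol, hvol]
    exact div_le_div_of_nonneg_right (h1 u) hf.le
  · rw [hvol]
    exact div_pos ha0 hf
  · rintro _ ⟨⟨u, rfl⟩, hu⟩
    rw [hvol] at hu
    rw [hvol, hvol]
    refine div_le_div_of_nonneg_right (h4 u fun h => ?_) hf.le
    rw [h, abs_zero, zero_div] at hu
    exact lt_irrefl _ hu
  rw [hvol, hvol, div_div_div_cancel_right₀ hf.ne']
  have hk0 : (0 : ℝ) < 2 * k := by
    have : (0 : ℝ) < k := by exact_mod_cast (by omega : 0 < k)
    linarith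
  have hgp' : ∀ u : Fin d → Fin n, (∀ i, u i ∈ J) →
      (∀ i j, i ≠ j → {y : Fin d → ℝ | ∃ t : ℝ, y = X (u i) + t • w} ≠ {y | ∃ t : ℝ, y = X (u j) + t • w}) →
      ∀ φ : (Fin d → ℝ) →ₗ[ℝ] ℝ, φ ≠ 0 → φ w = 0 → ∃ i j, φ (X (u i)) ≠ φ (X (u j)) := by
    intro u hu hne φ hφ hφw
    by_contra hcon
    push Not at hcon
    refine hgp u hu hne φ hφ (φ (X (u ⟨0, by omega⟩))) fun i y hy => ?_
    obtain ⟨t, rfl⟩ := hy
    rw [map_add, map_smul, hφw, smul_zero, add_zero]
    exact hcon i _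
  have key : ((d : ℝ) + 1) * ((J.card : ℝ) - k) / (2 * k) ≤
      |(Pool.Agent.Lib.H49SV.diffs (X ∘ v)).det| / |(Pool.Agent.Lib.H49SV.diffs (X ∘ v')).det| := by
    rw [div_le_div_iff₀ hk0 ha0]
    have h5 := H2P.sub_gp (by omega) X hX w hw J k hk hJk _ _ h1 h4 hgp'
    linarith
  have key2 : ((d : ℝ) + 1) * ((J.card : ℝ) - k) / (6 * d + 4) ≤
      |(Pool.Agent.Lib.H49SV.diffs (X ∘ v)).det| / |(Pool.Agent.Lib.H49SV.diffs (X ∘ v')).det| := by
    rw [div_le_div_iff₀ (by positivity) ha0]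
    have h5 := H2P.sub_many hd X hX w hw J k hk hJk _ _ ha0.le (abs_pos.2 h2) h1 h4 hgp'
    linarith
  have key3 : ((k : ℝ) - d) * ((J.card : ℝ) - k) / (4 * k) ≤
      |(Pool.Agent.Lib.H49SV.diffs (X ∘ v)).det| / |(Pool.Agent.Lib.H49SV.diffs (X ∘ v')).det| := by
    rw [div_le_div_iff₀ (by linarith) ha0]
    have h5 := H2P.sub_four hd X hX w hw J k hk hJk _ _ ha0.le (abs_pos.2 h2) h1 h4 hgp'
    linarith
  refine ⟨key, key3, key2, fun hJ h2k hn => lt_of_lt_of_le ?_ key, fun hJ h4k hn => lt_of_lt_of_le ?_ key3,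
    fun hJ hd6 hn => lt_of_lt_of_le ?_ key2⟩
  · subst hJ
    rw [Finset.card_univ, Fintype.card_fin]
    exact H2P.arith_gp (by omega) hk h2k hn
  · subst hJ
    rw [Finset.card_univ, Fintype.card_fin]
    exact H2P.arith_four hk h4k hn
  · subst hJ
    rw [Finset.card_univ, Fintype.card_fin]
    exact H2P.arith_many hd6 hn

end Pool.Agent.Results.MP_280848_co.GeneralPosition
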