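import Pool.Agent.Lib.H2P.U

/-!
# The conjectured bound for configurations on at most d + 2 parallel lines (MP_280848_co)

`X` is a configuration of `n` different points which span `ℝ^d`, `d ≥ 3`, `A` and `a` are the largest and the
smallest positive volume of a simplex with vertices in `X`. The configurations of the upper bound lie on `d`
parallel lines. Here the conjectured lower bound is proved for the configurations on at most `d + 2` parallel
lines, and for those with most points on such lines.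

Proof for `d + 1` lines. Let `h l` be the distance of the extreme points on the line `l`, and `C m` the volume of
the simplex over the other `d` lines. Two points of `l` and one point of each other line except `m` span the volume
`h * |C m|`, so `(n l - 1) a ≤ h l * |C m| ≤ A`, and one point on each line gives `∑ h l * |C l| ≤ 2 A`.
For `d + 2` lines this is used for the subsets of `d + 1` lines (or less) which span the space.
-/

namespace Pool.Agent.Results.MP_280848_co.ParallelLines

/-- The volume of the simplex with the vertices `x 0, ..., x d`. -/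
noncomputable def simplexVolume {d : ℕ} (x : Fin (d + 1) → Fin d → ℝ) : ℝ :=
  |Matrix.det (Matrix.of fun i j : Fin d => x i.succ j - x 0 j)| / d.factorial

/-- The volumes of the simplices with vertices in the configuration `X`. -/
def volumes {d n : ℕ} (X : Fin n → Fin d → ℝ) : Set ℝ :=
  {t | ∃ u : Fin (d + 1) → Fin n, t = simplexVolume fun i => X (u i)}

/-- The number of lines with the direction `w` which contain a point `X i`, `i ∈ J`. -/
noncomputable def lineCount {d n : ℕ} (X : Fin n → Fin d → ℝ) (w : Fin d → ℝ) (J : Finset (Fin n)) : ℕ :=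
  ((fun i => {y : Fin d → ℝ | ∃ t : ℝ, y = X i + t • w}) '' (J : Set (Fin n))).ncard

theorem result (d n : ℕ) (hd : 3 ≤ d) (X : Fin n → Fin d → ℝ) (hX : Function.Injective X)
    (hspan : affineSpan ℝ (Set.range X) = ⊤) :
    ∃ A a : ℝ, IsGreatest (volumes X) A ∧ IsLeast {t ∈ volumes X | 0 < t} a ∧
      ∀ w : Fin d → ℝ, w ≠ 0 →
        (lineCount X w Finset.univ = d → (((n - 1) / d : ℕ) : ℝ) ≤ A / a) ∧
        (lineCount X w Finset.univ ≤ d + 1 → d ^ 2 - d + 2 ≤ n → (((n - 1) / d : ℕ) : ℝ) ≤ A / a) ∧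
        ∀ J : Finset (Fin n), affineSpan ℝ (X '' (J : Set (Fin n))) = ⊤ →
          d ≤ lineCount X w J ∧
          (lineCount X w J = d + 1 → ((J.card : ℝ) - d - 1) / (d - 1) ≤ A / a) ∧
          (lineCount X w J = d + 2 → d * ((J.card : ℝ) - d - 2) / ((d : ℝ) ^ 2 - 1) ≤ A / a) ∧
          ((lineCount X w J ≤ d + 1 ∧ (d - 1) * n + d ^ 2 + 2 ≤ d * J.card) ∨
            (lineCount X w J ≤ d + 2 ∧ (d ^ 2 - 1) * n + d ^ 3 + d ^ 2 + 2 ≤ d ^ 2 * J.card) →
              (((n - 1) / d : ℕ) : ℝ) ≤ A / a ∧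
                (lineCount X w Finset.univ ≠ d → ((n : ℝ) - 1) / d < A / a)) := by
  obtain ⟨v, v', h1, h2, h3, h4⟩ := Pool.Agent.Lib.H49SV.extremes n X hspan
  have hf : (0 : ℝ) < d.factorial := by positivity
  have hvol : ∀ u : Fin (d + 1) → Fin n, simplexVolume (fun i => X (u i)) =
      |(Pool.Agent.Lib.H49SV.diffs (X ∘ u)).det| / d.factorial := fun u => rfl
  have ha0 : 0 < |(Pool.Agent.Lib.H49SV.diffs (X ∘ v')).det| := abs_pos.2 h3
  have hd1 : (0 : ℝ) < (d : ℝ) - 1 := by
    have : (3 : ℝ) ≤ d := by exact_mod_cast hd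
    linarith
  refine ⟨simplexVolume fun i => X (v i), simplexVolume fun i => X (v' i), ⟨⟨v, rfl⟩, ?_⟩,
    ⟨⟨⟨v', rfl⟩, ?_⟩, ?_⟩, fun w hw => ?_⟩
  · rintro _ ⟨u, rfl⟩
    rw [hvol, hvol]
    exact div_le_div_of_nonneg_right (h1 u) hf.le
  · rw [hvol]
    exact div_pos ha0 hf
  · rintro _ ⟨⟨u, rfl⟩, hu⟩
    rw [hvol] at hu
    rw [hvol, hvol]
    refine div_le_div_of_nonneg_right (h4 u fun h => ?_) hf.le
    rw [h, abs_zero, zero_div] at hu
    exact lt_irrefl _ hu
  rw [hvol, hvol, div_div_div_cancel_right₀ hf.ne']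
  set R : ℝ := |(Pool.Agent.Lib.H49SV.diffs (X ∘ v)).det| / |(Pool.Agent.Lib.H49SV.diffs (X ∘ v')).det| with hR
  have hd2 : (0 : ℝ) < (d : ℝ) ^ 2 - 1 := by
    have : (3 : ℝ) ≤ d := by exact_mod_cast hd
    nlinarith
  have key : ∀ J : Finset (Fin n), affineSpan ℝ (X '' (J : Set (Fin n))) = ⊤ → d ≤ lineCount X w J ∧
      (lineCount X w J = d → (((J.card - 1) / d : ℕ) : ℝ) ≤ R) ∧
      (lineCount X w J = d + 1 → ((J.card : ℝ) - d - 1) / (d - 1) ≤ R) ∧
      (lineCount X w J = d + 2 → d * ((J.card : ℝ) - d - 2) / ((d : ℝ) ^ 2 - 1) ≤ R) := by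
    intro J hJ
    obtain ⟨k1, k2, k3⟩ := H2P.sub hd X hX w hw J hJ _ _ ha0 h1 h4
    refine ⟨k1, fun hk => ?_, fun hk => ?_, fun hk => ?_⟩
    · rw [hR, le_div_iff₀ ha0]
      exact k2 hk
    · rw [hR, div_le_div_iff₀ hd1 ha0]
      have k4 := k3 hk
      linarith
    · rw [hR, div_le_div_iff₀ hd2 ha0]
      have k4 := H2P.sub_two hd X hX w hw J hJ _ _ ha0 h1 h4 hk
      linarith
  have huniv : affineSpan ℝ (X '' ((Finset.univ : Finset (Fin n)) : Set (Fin n))) = ⊤ := by
    rw [Finset.coe_univ, Set.image_univ]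
    exact hspan
  obtain ⟨u1, u2, u3, u4⟩ := key Finset.univ huniv
  rw [Finset.card_univ, Fintype.card_fin] at u2 u3
  refine ⟨u2, fun hk hn => ?_, fun J hJ => ?_⟩
  · rcases Nat.lt_or_ge d (lineCount X w Finset.univ) with h | h
    · exact (H2P.arith hd hn).trans (u3 (by omega))
    · exact u2 (by omega)
  obtain ⟨k1, k2, k3, k4⟩ := key J hJ
  refine ⟨k1, k3, k4, fun hcase => ?_⟩
  have hlt : lineCount X w Finset.univ ≠ d → ((n : ℝ) - 1) / d < R := by
    intro hne
    by_cases hk2 : lineCount X w J = d + 2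
    · rcases hcase with ⟨hk, -⟩ | ⟨-, hn⟩
      · omega
      · exact lt_of_lt_of_le (H2P.arith_two hd hn) (k4 hk2)
    have hk : lineCount X w J ≤ d + 1 := by
      rcases hcase with ⟨hk, -⟩ | ⟨hk, -⟩
      · exact hk
      · omega
    have hn : (d - 1) * n + d ^ 2 + 2 ≤ d * J.card := by
      rcases hcase with ⟨-, hn⟩ | ⟨-, hn⟩
      · exact hn
      · exact H2P.cond_two hd hn
    rcases Nat.lt_or_ge d (lineCount X w J) with h | h
    · exact lt_of_lt_of_le (H2P.arith_sub hd hn) (k3 (by omega))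
    · have hJd : lineCount X w J = d := by omega
      obtain ⟨J', hJ', hl', hc'⟩ := H2P.exists_insert X w J hJ (by
        change lineCount X w Finset.univ ≠ lineCount X w J
        rw [hJd]
        exact hne)
      refine lt_of_lt_of_le (H2P.arith_sub hd (hn.trans ?_)) ((key J' hJ').2.2.1 (by
        change lineCount X w J' = lineCount X w J + 1 at hl'
        rw [hl', hJd]))
      rw [hc']
      exact Nat.mul_le_mul_left d (Nat.le_succ _)
  refine ⟨?_, hlt⟩
  by_cases hu : lineCount X w Finset.univ = d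
  · exact u2 hu
  · refine le_trans ?_ (hlt hu).le
    have hn1 : 1 ≤ n := by
      have := Pool.Agent.Lib.H49SV.card_ge n X hspan
      omega
    refine le_trans Nat.cast_div_le ?_
    rw [Nat.cast_sub hn1, Nat.cast_one]

end Pool.Agent.Results.MP_280848_co.ParallelLines
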