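import Pool.Agent.Lib.H43SN.R
import Pool.Agent.Lib.H69SN.Set
import Pool.Agent.Lib.H2C.Cone

/-!
# Few points: the conjectured value is too large (MP_280848_co)

`f_d(n)` is the least quotient of the largest and the smallest positive volume of a simplex with vertices in a
configuration of `n` different points which span `ℝ^d`; `RatioLE d n r` says `f_d(n) ≤ r`. It is known that
`f_d(n) ≤ [(n - 1) / d]`, and Q1 asks for equality for all large `n`. Here much better upper bounds for
`n` up to about `2 d²`.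

Proof. Let `X` be the product of the `a + 1` vertices of a unit simplex of `ℝ^a` with a finite set `Y ⊆ ℤ^b`, so
`|X| = (a + 1) |Y|` and `d = a + b`. A simplex with vertices in `X` whose vertices do not use all `a + 1` vertices of
the unit simplex is degenerate. Otherwise choose one vertex of it over each of them; its determinant is, up to sign,
the determinant of the `b` differences `y - y'`, where `y` belongs to one of the other `b` vertices and `y'` to the
chosen vertex in the same class. So all determinants are integers, at most the maximum `D` of these determinants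
(`H43SN.exists_config`, for every `Y`). First family: `b = c` and
`Y = {0, e_1, 2 e_1, ..., r e_1, e_2, ..., e_c}`; the determinants of `c` differences are at most `r`, since they are
sums of `r` determinants of differences of zero or unit vectors, which are `0`, `1` or `-1`. Second family, `r = 4 m`:
`b = c` and `Y` consists of `4 m + 3` points of three columns of `ℤ²` and the unit vectors `e_3, ..., e_c` (a new unit
vector does not make the determinants of differences larger: `H2C.cone_det`).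
-/

set_option autoImplicit false

namespace Pool.Agent.Results.MP_280848_co.SmallN

/-- The volume of the simplex with the vertices `x 0, ..., x d`. -/
noncomputable def simplexVolume {d : ℕ} (x : Fin (d + 1) → Fin d → ℝ) : ℝ :=
  |Matrix.det (Matrix.of fun i j : Fin d => x i.succ j - x 0 j)| / d.factorial

/-- The volumes of the simplices with vertices in the configuration `X`. -/
def volumes {d n : ℕ} (X : Fin n → Fin d → ℝ) : Set ℝ :=
  {t | ∃ u : Fin (d + 1) → Fin n, t = simplexVolume fun i => X (u i)}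

/-- `f_d(n) ≤ r`: some `n` different points which span `ℝ^d` have a largest volume `A` and a smallest positive volume
`a` with `A / a ≤ r`. -/
def RatioLE (d n : ℕ) (r : ℝ) : Prop :=
  ∃ X : Fin n → Fin d → ℝ, Function.Injective X ∧ affineSpan ℝ (Set.range X) = ⊤ ∧
    ∃ A a : ℝ, IsGreatest (volumes X) A ∧ IsLeast {t ∈ volumes X | 0 < t} a ∧ A / a ≤ r

theorem ratioLE_of {d n : ℕ} (X : Fin n → Fin d → ℤ) (hX : Function.Injective X)
    (hspan : affineSpan ℝ (Set.range fun i => H43SN.cast (X i)) = ⊤) (D : ℤ)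
    (hD : ∀ u : Fin (d + 1) → Fin n, |(Matrix.of fun i j : Fin d => X (u i.succ) j - X (u 0) j).det| ≤ D) :
    RatioLE d n D := by
  refine ⟨fun i => H43SN.cast (X i), fun i j h => hX (H43SN.cast_injective h), hspan, ?_⟩
  obtain ⟨v, w, h1, h2, h3, h4⟩ := Pool.Agent.Lib.H49SV.extremes n (fun i => H43SN.cast (X i)) hspan
  have hf : (0 : ℝ) < d.factorial := by positivity
  have hvol : ∀ u : Fin (d + 1) → Fin n, simplexVolume (fun i => H43SN.cast (X (u i))) =
      |(Pool.Agent.Lib.H49SV.diffs ((fun i => H43SN.cast (X i)) ∘ u)).det| / d.factorial := fun u => rfl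
  have ha0 := abs_pos.2 h3
  refine ⟨simplexVolume fun i => H43SN.cast (X (v i)), simplexVolume fun i => H43SN.cast (X (w i)), ⟨⟨v, rfl⟩, ?_⟩,
    ⟨⟨⟨w, rfl⟩, ?_⟩, ?_⟩, ?_⟩
  · rintro _ ⟨u, rfl⟩
    rw [hvol, hvol]
    exact div_le_div_of_nonneg_right (h1 u) hf.le
  · rw [hvol]
    exact div_pos ha0 hf
  · rintro _ ⟨⟨u, rfl⟩, hu⟩
    rw [hvol] at hu
    rw [hvol, hvol]
    refine div_le_div_of_nonneg_right (h4 u fun h => ?_) hf.le
    rw [h, abs_zero, zero_div] at hu
    exact lt_irrefl _ hu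
  · rw [hvol, hvol, div_div_div_cancel_right₀ hf.ne']
    exact H43SN.ratio X D hD v w h3

/-- Upper bounds for `f_d(n)`, given by the product of a unit simplex with a finite set of integer points:
`f_d(n) ≤ r` for `n ≤ (d + 1 - c) (r + c)`, `1 ≤ c ≤ d`, and even for `n ≤ (d + 1 - c) (r + c + 1)` if `4 ∣ r` and
`2 ≤ c`. So for every `d ≥ 4` the equality `f_d(n) = [(n - 1) / d]` fails for some `n ≥ (d - 1) (2 d - 3)`. -/
theorem result :
    (∀ d n r c : ℕ, 2 ≤ d → d + 1 ≤ n → 1 ≤ r → 1 ≤ c → c ≤ d →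
      (n ≤ (d + 1 - c) * (r + c) ∨ (4 ∣ r ∧ 2 ≤ c ∧ n ≤ (d + 1 - c) * (r + c + 1))) → RatioLE d n r) ∧
    (∀ d : ℕ, 4 ≤ d → ∃ n : ℕ, (d - 1) * (2 * d - 3) ≤ n ∧
      ∃ r : ℝ, RatioLE d n r ∧ r < (((n - 1) / d : ℕ) : ℝ)) := by
  have key1 : ∀ (a b : ℕ) (Y : Finset (Fin b → ℤ)) (D : ℤ), Y.Nonempty →
      (∀ u v : Fin b → Fin b → ℤ, (∀ l, u l ∈ Y) → (∀ l, v l ∈ Y) →
        |(Matrix.of fun l j : Fin b => u l j - v l j).det| ≤ D) →
      (∃ u v : Fin b → Fin b → ℤ, (∀ l, u l ∈ Y) ∧ (∀ l, v l ∈ Y) ∧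
        (Matrix.of fun l j : Fin b => u l j - v l j).det ≠ 0) →
      ∀ n : ℕ, a + b + 1 ≤ n → n ≤ (a + 1) * Y.card → RatioLE (a + b) n D := by
    intro a b Y D hYn hD hY n h1 h2
    obtain ⟨X, hX, hspan, hX'⟩ := H43SN.exists_config (a := a) Y D hYn hD hY n h1 h2
    exact ratioLE_of X hX hspan D hX'
  have key2 : ∀ d c r n : ℕ, 1 ≤ c → c ≤ d → 1 ≤ r → d + 1 ≤ n → n ≤ (d + 1 - c) * (r + c) → RatioLE d n r := by
    intro d c r n hc hcd hr h1 h2
    obtain ⟨b, rfl⟩ : ∃ b, c = b + 1 := ⟨c - 1, by omega⟩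
    obtain ⟨a, rfl⟩ : ∃ a, d = a + (b + 1) := ⟨d - (b + 1), by omega⟩
    have h3 : a + (b + 1) + 1 - (b + 1) = a + 1 := by omega
    rw [h3] at h2
    obtain ⟨X, hX, hspan, hX'⟩ := H43SN.exists_long a b r hr n h1 h2
    have := ratioLE_of X hX hspan r hX'
    simpa using this
  have key3 : ∀ d c m n : ℕ, 2 ≤ c → c ≤ d → 1 ≤ m → d + 1 ≤ n → n ≤ (d + 1 - c) * (4 * m + c + 1) →
      RatioLE d n (4 * m) := by
    intro d c m n hc hcd hm h1 h2
    obtain ⟨k, rfl⟩ : ∃ k, c = 2 + k := ⟨c - 2, by omega⟩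
    obtain ⟨a, rfl⟩ : ∃ a, d = a + (2 + k) := ⟨d - (2 + k), by omega⟩
    have h3 : a + (2 + k) + 1 - (2 + k) = a + 1 := by omega
    rw [h3] at h2
    obtain ⟨Z, hZc, hZn, hZD, hZne⟩ := H2C.exists_cones k (H69SN.hexY m) (4 * m)
      (Finset.card_pos.1 (by rw [H69SN.card_hexY]; omega)) (fun u v hu hv => H69SN.hexY_det m u v hu hv)
      (H69SN.hexY_ne m hm)
    rw [H69SN.card_hexY] at hZc
    have h4 := key1 a (2 + k) Z (4 * m) hZn hZD hZne n h1 (by
      rw [hZc]
      refine h2.trans (le_of_eq ?_)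
      congr 1
      omega)
    simpa using h4
  refine ⟨?_, ?_⟩
  · rintro d n r c hd h1 hr hc hcd (h2 | ⟨⟨m, rfl⟩, hc2, h2⟩)
    · exact key2 d c r n hc hcd hr h1 h2
    · have := key3 d c m n hc2 hcd (by omega) h1 h2
      exact_mod_cast this
  · intro d hd
    obtain ⟨m, hm⟩ : ∃ m, m = (d - 2) / 2 := ⟨_, rfl⟩
    refine ⟨(d - 1) * (4 * m + 3), Nat.mul_le_mul_left _ (by omega), 4 * m, ?_, ?_⟩
    · refine key3 d 2 m _ le_rfl (by omega) (by omega) ?_ ?_
      · obtain ⟨e, rfl⟩ : ∃ e, d = e + 4 := ⟨d - 4, by omega⟩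
        have : (e + 4 - 1) * (4 * m + 3) ≥ (e + 3) * 3 := by
          have e1 : e + 4 - 1 = e + 3 := by omega
          rw [e1]
          exact Nat.mul_le_mul_left _ (by omega)
        omega
      · have e2 : d + 1 - 2 = d - 1 := by omega
        rw [e2]
    · have := H69SN.hex_arith d m (by omega)
      exact_mod_cast this

end Pool.Agent.Results.MP_280848_co.SmallN
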